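import Mathlib

/-!
Definitions around the small-subalgebra function `etaB*` of Ananyan and Hochster.
-/

set_option autoImplicit false

namespace Pool.Agent.H794R3.SmallSub

open MvPolynomial

universe u

/-- Serre's condition `R_η`: all localizations at primes of height at most `η` are regular. -/
def SerreR (η : ℕ) (A : Type u) [CommRing A] : Prop :=
  ∀ (p : Ideal A) [p.IsPrime], p.height ≤ (η : ℕ∞) → IsRegularLocalRing (Localization.AtPrime p)

/-- `H_1, …, H_s` is an `R_η`-sequence in `A`: it is a regular sequence and each of the rings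
`A/(H_1, …, H_i)`, `0 ≤ i ≤ s`, satisfies Serre's condition `R_η`. -/
def IsRSeq (η : ℕ) {A : Type u} [CommRing A] {s : ℕ} (H : Fin s → A) : Prop :=
  RingTheory.Sequence.IsRegular A (List.ofFn H) ∧
    ∀ i ≤ s, SerreR η (A ⧸ Ideal.ofList ((List.ofFn H).take i))

variable {K : Type u} [Field K] {N t : ℕ}

/-- `h` is a `K`-linear combination of those `G_j` having one common degree. -/
def CommonDegree (G : Fin t → MvPolynomial (Fin N) K) (e : Fin t → ℕ)
    (h : MvPolynomial (Fin N) K) : Prop :=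
  ∃ c : ℕ, h ∈ Submodule.span K {g | ∃ j, e j = c ∧ g = G j}

/-- the span of the `G_j` of degree `c` -/
noncomputable def V (G : Fin t → MvPolynomial (Fin N) K) (e : Fin t → ℕ) (c : ℕ) :
    Submodule K (MvPolynomial (Fin N) K) :=
  Submodule.span K {g | ∃ j, e j = c ∧ g = G j}

theorem mon_homog (G : Fin t → MvPolynomial (Fin N) K) (e : Fin t → ℕ)
    (hG : ∀ j, (G j).IsHomogeneous (e j)) (m : Fin t →₀ ℕ) :
    (m.prod fun j k => G j ^ k).IsHomogeneous (m.sum fun j k => e j * k) := by
  unfold Finsupp.prod Finsupp.sum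
  apply IsHomogeneous.prod
  intro j _
  exact (hG j).pow _

/-- all monomials in the `G_j` of degree `c` -/
noncomputable def Mon (G : Fin t → MvPolynomial (Fin N) K) (e : Fin t → ℕ) (c : ℕ) :
    Submodule K (MvPolynomial (Fin N) K) :=
  Submodule.span K {g | ∃ m : Fin t →₀ ℕ, (m.sum fun j k => e j * k) = c ∧
    g = m.prod fun j k => G j ^ k}

theorem comp_mem (G : Fin t → MvPolynomial (Fin N) K) (e : Fin t → ℕ)
    (hG : ∀ j, (G j).IsHomogeneous (e j)) (c : ℕ) (p : MvPolynomial (Fin t) K) :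
    homogeneousComponent c (aeval G p) ∈ Mon G e c := by
  induction p using MvPolynomial.induction_on' with
  | monomial m a =>
    rw [aeval_monomial]
    have h1 : (algebraMap K (MvPolynomial (Fin N) K) a * m.prod fun j k => G j ^ k) =
        a • (m.prod fun j k => G j ^ k) := by rw [Algebra.smul_def]
    rw [h1, map_smul]
    apply Submodule.smul_mem
    rw [homogeneousComponent_of_mem ((mem_homogeneousSubmodule _ _).2 (mon_homog G e hG m))]
    split_ifs with h
    · exact Submodule.subset_span ⟨m, h.symm, rfl⟩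
    · exact Submodule.zero_mem _
  | add p q hp hq =>
    rw [map_add, map_add]
    exact Submodule.add_mem _ hp hq

theorem mem_Mon (G : Fin t → MvPolynomial (Fin N) K) (e : Fin t → ℕ)
    (hG : ∀ j, (G j).IsHomogeneous (e j)) (c : ℕ) (f : MvPolynomial (Fin N) K)
    (hf : f.IsHomogeneous c) (hm : f ∈ Algebra.adjoin K (Set.range G)) : f ∈ Mon G e c := by
  rw [Algebra.adjoin_range_eq_range_aeval] at hm
  obtain ⟨p, hp⟩ := hm
  have h := comp_mem G e hG c p
  have hp' : aeval G p = f := hp
  rw [hp', homogeneousComponent_of_mem ((mem_homogeneousSubmodule _ _).2 hf), if_pos rfl] at h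
  exact h

theorem split_one {e : Fin t → ℕ} {m : Fin t →₀ ℕ} {j : Fin t} (hj : m j ≠ 0) :
    ∃ m' : Fin t →₀ ℕ, m = Finsupp.single j 1 + m' ∧
      (m.sum fun j k => e j * k) = e j + m'.sum fun j k => e j * k := by
  refine ⟨m - Finsupp.single j 1, ?_, ?_⟩
  · ext i
    simp only [Finsupp.coe_add, Pi.add_apply, Finsupp.coe_tsub, Pi.sub_apply]
    by_cases h : i = j
    · subst h; simp; omega
    · simp [Ne.symm h]
  · have h1 : m = Finsupp.single j 1 + (m - Finsupp.single j 1) := by
      ext i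
      simp only [Finsupp.coe_add, Pi.add_apply, Finsupp.coe_tsub, Pi.sub_apply]
      by_cases h : i = j
      · subst h; simp; omega
      · simp [Ne.symm h]
    conv_lhs => rw [h1]
    rw [Finsupp.sum_add_index' (fun a => by simp) (fun a b c => by ring)]
    rw [Finsupp.sum_single_index (by simp)]
    simp

theorem sum_zero {e : Fin t → ℕ} (he : ∀ j, 1 ≤ e j) {m : Fin t →₀ ℕ}
    (h : (m.sum fun j k => e j * k) = 0) : m = 0 := by
  by_contra hm
  obtain ⟨j, hj⟩ := Finsupp.ne_iff.1 hm
  obtain ⟨m', -, h2⟩ := split_one (e := e) hj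
  have := he j
  omega

theorem prod_single_add (G : Fin t → MvPolynomial (Fin N) K) (j : Fin t) (m' : Fin t →₀ ℕ) :
    ((Finsupp.single j 1 + m').prod fun j k => G j ^ k) = G j * m'.prod fun j k => G j ^ k := by
  rw [Finsupp.prod_add_index' (fun a => by simp) (fun a b c => by ring)]
  rw [Finsupp.prod_single_index (by simp)]
  simp

theorem sum_one (G : Fin t → MvPolynomial (Fin N) K) {e : Fin t → ℕ} (he : ∀ j, 1 ≤ e j)
    {m : Fin t →₀ ℕ} (h : (m.sum fun j k => e j * k) = 1) :
    ∃ j, e j = 1 ∧ (m.prod fun j k => G j ^ k) = G j := by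
  have hm : m ≠ 0 := by
    rintro rfl
    simp at h
  obtain ⟨j, hj⟩ := Finsupp.ne_iff.1 hm
  obtain ⟨m', h1, h2⟩ := split_one (e := e) hj
  have h3 := he j
  have h4 : (m'.sum fun j k => e j * k) = 0 := by omega
  have h5 := sum_zero he h4
  refine ⟨j, by omega, ?_⟩
  rw [h1, prod_single_add, h5]
  simp

theorem Mon_one (G : Fin t → MvPolynomial (Fin N) K) {e : Fin t → ℕ} (he : ∀ j, 1 ≤ e j) :
    Mon G e 1 ≤ V G e 1 := by
  unfold Mon
  rw [Submodule.span_le]
  rintro g ⟨m, hm, rfl⟩
  obtain ⟨j, hj, h⟩ := sum_one G he hm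
  rw [h]
  exact Submodule.subset_span ⟨j, hj, rfl⟩

theorem Mon_two (G : Fin t → MvPolynomial (Fin N) K) {e : Fin t → ℕ} (he : ∀ j, 1 ≤ e j) :
    Mon G e 2 ≤ V G e 1 * V G e 1 ⊔ V G e 2 := by
  unfold Mon
  rw [Submodule.span_le]
  rintro g ⟨m, hm, rfl⟩
  have hm0 : m ≠ 0 := by
    rintro rfl
    simp at hm
  obtain ⟨j, hj⟩ := Finsupp.ne_iff.1 hm0
  obtain ⟨m', h1, h2⟩ := split_one (e := e) hj
  have h3 := he j
  rcases Nat.lt_or_ge (e j) 2 with h4 | h4
  · have h5 : (m'.sum fun j k => e j * k) = 1 := by omega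
    obtain ⟨i, hi, h⟩ := sum_one G he h5
    rw [h1, SetLike.mem_coe, prod_single_add, h]
    apply Submodule.mem_sup_left
    exact Submodule.mul_mem_mul (Submodule.subset_span ⟨j, by omega, rfl⟩)
      (Submodule.subset_span ⟨i, hi, rfl⟩)
  · have h5 : (m'.sum fun j k => e j * k) = 0 := by omega
    have h6 := sum_zero he h5
    rw [h1, SetLike.mem_coe, prod_single_add, h6]
    apply Submodule.mem_sup_right
    simp only [Finsupp.prod_zero_index, mul_one]
    exact Submodule.subset_span ⟨j, by omega, rfl⟩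

theorem V_homog (G : Fin t → MvPolynomial (Fin N) K) (e : Fin t → ℕ)
    (hG : ∀ j, (G j).IsHomogeneous (e j)) (c : ℕ) {f : MvPolynomial (Fin N) K}
    (hf : f ∈ V G e c) : f.IsHomogeneous c := by
  have : V G e c ≤ homogeneousSubmodule (Fin N) K c := by
    unfold V
    rw [Submodule.span_le]
    rintro g ⟨j, hj, rfl⟩
    have := hG j
    rw [hj] at this
    exact this
  exact this hf

/-- derivatives of elements of `W * W` lie in `W` -/
theorem pderiv_mem (W : Submodule K (MvPolynomial (Fin N) K))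
    (hW : ∀ w ∈ W, w.IsHomogeneous 1) (a : Fin N) {f : MvPolynomial (Fin N) K}
    (hf : f ∈ W * W) : pderiv a f ∈ W := by
  have hc : ∀ w ∈ W, ∃ c : K, pderiv a w = C c := by
    intro w hw
    have h1 : (pderiv a w).IsHomogeneous 0 := (hW w hw).pderiv
    refine ⟨coeff 0 (pderiv a w), ?_⟩
    rw [← homogeneousComponent_zero, homogeneousComponent_of_mem
      ((mem_homogeneousSubmodule _ _).2 h1), if_pos rfl]
  refine Submodule.mul_induction_on hf ?_ ?_
  · intro m hm n hn
    obtain ⟨c, hc1⟩ := hc m hm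
    obtain ⟨d, hd1⟩ := hc n hn
    have h1 : pderiv a (m * n) = c • n + d • m := by
      rw [Derivation.leibniz, hc1, hd1, smul_eq_C_mul, smul_eq_C_mul, smul_eq_mul, smul_eq_mul]
      ring
    rw [h1]
    exact Submodule.add_mem _ (Submodule.smul_mem _ _ hn) (Submodule.smul_mem _ _ hm)
  · intro x y hx hy
    rw [map_add]
    exact Submodule.add_mem _ hx hy

end Pool.Agent.H794R3.SmallSub
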