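import Pool.Agent.H794R3.SmallSub.Defs

/-!
The doubling argument.
-/

set_option autoImplicit false

namespace Pool.Agent.H794R3.SmallSub

open MvPolynomial

universe u

variable {K : Type u} [Field K] {N t : ℕ}

/-- no nonzero combination of the quadratic `G_j` lies in the ideal of the linear `G_j` -/
def NoRed (G : Fin t → MvPolynomial (Fin N) K) (e : Fin t → ℕ) : Prop :=
  ∀ u ∈ V G e 2, u ∈ Ideal.span (V G e 1 : Set (MvPolynomial (Fin N) K)) → u = 0

theorem V_fin (G : Fin t → MvPolynomial (Fin N) K) (e : Fin t → ℕ) (c : ℕ) :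
    Module.Finite K (V G e c) := by
  apply Module.Finite.span_of_finite
  apply (Set.finite_range G).subset
  rintro g ⟨j, -, rfl⟩
  exact ⟨j, rfl⟩

/-- the sequence: a basis of the space of linear forms, and one more form `u`. -/
theorem snoc_seq (G : Fin t → MvPolynomial (Fin N) K) (e : Fin t → ℕ)
    (hG : ∀ j, (G j).IsHomogeneous (e j)) (u : MvPolynomial (Fin N) K) (hu : u ∈ V G e 2)
    (hu0 : u ≠ 0) :
    ∃ (m : ℕ) (b : Fin m → MvPolynomial (Fin N) K),
      Ideal.ofList (List.ofFn b) = Ideal.span (V G e 1 : Set (MvPolynomial (Fin N) K)) ∧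
      LinearIndependent K (Fin.snoc (α := fun _ => MvPolynomial (Fin N) K) b u) ∧
      (∀ i, CommonDegree G e (Fin.snoc (α := fun _ => MvPolynomial (Fin N) K) b u i)) := by
  haveI := V_fin G e 1
  let B := Module.finBasis K (V G e 1)
  have hspan : Submodule.span K (Set.range fun i => (B i : MvPolynomial (Fin N) K)) = V G e 1 := by
    have h1 := B.span_eq
    have h2 : Submodule.map (V G e 1).subtype (Submodule.span K (Set.range B)) =
        Submodule.map (V G e 1).subtype ⊤ := by rw [h1]
    rw [Submodule.map_span, Submodule.map_top, Submodule.range_subtype, ← Set.range_comp] at h2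
    exact h2
  refine ⟨_, fun i => (B i : MvPolynomial (Fin N) K), ?_, ?_, ?_⟩
  · apply le_antisymm
    · unfold Ideal.ofList
      rw [Ideal.span_le]
      intro x hx
      rw [Set.mem_setOf_eq, List.mem_ofFn] at hx
      obtain ⟨i, rfl⟩ := hx
      exact Ideal.subset_span (B i).2
    · rw [Ideal.span_le]
      intro x hx
      rw [← hspan] at hx
      refine Submodule.span_induction ?_ ?_ ?_ ?_ hx
      · rintro y ⟨i, rfl⟩
        apply Ideal.subset_span
        rw [Set.mem_setOf_eq, List.mem_ofFn]
        exact ⟨i, rfl⟩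
      · exact Ideal.zero_mem _
      · intro y z _ _ hy hz
        exact Ideal.add_mem _ hy hz
      · intro a y _ hy
        rw [smul_eq_C_mul]
        exact Ideal.mul_mem_left _ _ hy
  · rw [linearIndependent_finSnoc]
    refine ⟨B.linearIndependent.map' (V G e 1).subtype (Submodule.ker_subtype _), ?_⟩
    rw [hspan]
    intro h
    have h1 := V_homog G e hG 1 h
    have h2 := V_homog G e hG 2 hu
    have := h1.inj_right h2 hu0
    omega
  · intro i
    refine Fin.lastCases ?_ (fun j => ?_) i
    · rw [Fin.snoc_last]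
      exact ⟨2, hu⟩
    · rw [Fin.snoc_castSucc]
      exact ⟨1, (B j).2⟩

theorem ofFn_snoc {α : Type u} {m : ℕ} (b : Fin m → α) (u : α) :
    List.ofFn (Fin.snoc (α := fun _ => α) b u) = List.ofFn b ++ [u] := by
  rw [List.ofFn_succ']
  simp [List.concat_eq_append]

theorem reg_of_isRegular {A : Type u} [CommRing A] (l : List A) (u : A)
    (h : RingTheory.Sequence.IsRegular A (l ++ [u])) :
    (∀ a, u * a ∈ Ideal.ofList l → a ∈ Ideal.ofList l) ∧ Ideal.ofList (l ++ [u]) ≠ ⊤ := by
  constructor
  · intro a ha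
    have h1 := (RingTheory.Sequence.isWeaklyRegular_append_iff A l [u]).1 h.toIsWeaklyRegular
    have h2 := (RingTheory.Sequence.isWeaklyRegular_singleton_iff _ u).1 h1.2
    have h3 : ∀ x : A, (Submodule.Quotient.mk x :
        A ⧸ (Ideal.ofList l • ⊤ : Submodule A A)) = 0 ↔ x ∈ Ideal.ofList l := by
      intro x
      rw [Submodule.Quotient.mk_eq_zero, smul_eq_mul, Ideal.mul_top]
    rw [← h3]
    apply h2
    show u • (Submodule.Quotient.mk a : A ⧸ (Ideal.ofList l • ⊤ : Submodule A A)) = u • 0
    rw [smul_zero, ← Submodule.Quotient.mk_smul, h3]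
    exact ha
  · intro h1
    apply h.top_ne_smul
    rw [h1, smul_eq_mul, Ideal.mul_top]

/-- If a form of degree two lying in the subalgebra belongs to the ideal generated by the linear
`G_j`, then it is a quadratic form in the linear `G_j`. -/
theorem in_square (G : Fin t → MvPolynomial (Fin N) K) (e : Fin t → ℕ)
    (he : ∀ j, 1 ≤ e j) (hG : ∀ j, (G j).IsHomogeneous (e j)) (hreg : NoRed G e)
    (f : MvPolynomial (Fin N) K) (hf : f.IsHomogeneous 2)
    (hm : f ∈ Algebra.adjoin K (Set.range G))
    (hI : f ∈ Ideal.span (V G e 1 : Set (MvPolynomial (Fin N) K))) : f ∈ V G e 1 * V G e 1 := by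
  have h1 := Mon_two G he (mem_Mon G e hG 2 f hf hm)
  obtain ⟨s, hs, u, hu, hsu⟩ := Submodule.mem_sup.1 h1
  have hsI : s ∈ Ideal.span (V G e 1 : Set (MvPolynomial (Fin N) K)) := by
    refine Submodule.mul_induction_on hs ?_ ?_
    · intro m hm n _
      exact Ideal.mul_mem_right _ _ (Ideal.subset_span hm)
    · intro x y hx hy
      exact Ideal.add_mem _ hx hy
  have huI : u ∈ Ideal.span (V G e 1 : Set (MvPolynomial (Fin N) K)) := by
    have : u = f - s := by rw [← hsu]; ring
    rw [this]
    exact Ideal.sub_mem _ hI hsI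
  rw [← hsu, hreg u hu huI, add_zero]
  exact hs

/-- the variables as a sequence indexed by `ℕ` -/
noncomputable def x (N : ℕ) (i : ℕ) : MvPolynomial (Fin N) K :=
  if h : i < N then X ⟨i, h⟩ else 0

/-- the quadrics `∑_{i < 2^k} x_i x_{i + 2^k}` -/
noncomputable def q (N k : ℕ) : MvPolynomial (Fin N) K :=
  ∑ i ∈ Finset.range (2 ^ k), x N i * x N (i + 2 ^ k)

theorem x_homog (i : ℕ) : (x (K := K) N i).IsHomogeneous 1 := by
  unfold x
  split_ifs
  · exact isHomogeneous_X _ _
  · exact isHomogeneous_zero _ _ _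

theorem q_homog (k : ℕ) : (q (K := K) N k).IsHomogeneous 2 := by
  unfold q
  apply IsHomogeneous.sum
  intro i _
  exact (x_homog i).mul (x_homog _)

theorem pderiv_x {a : ℕ} (ha : a < N) (i : ℕ) :
    pderiv (⟨a, ha⟩ : Fin N) (x (K := K) N i) = if i = a then 1 else 0 := by
  unfold x
  by_cases h : i < N
  · rw [dif_pos h, pderiv_X]
    by_cases h2 : i = a
    · subst h2; simp
    · rw [if_neg h2, Pi.single_eq_of_ne]
      intro h3
      exact h2 (Fin.mk.inj_iff.1 h3)
  · rw [dif_neg h, map_zero, if_neg (by omega)]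

theorem pderiv_q (k : ℕ) (hk : 2 ^ (k + 1) ≤ N) {a : ℕ} (ha : a < 2 ^ k) :
    pderiv (⟨a, by have := Nat.pow_lt_pow_right (show 1 < 2 by norm_num) (Nat.lt_succ_self k); omega⟩ : Fin N)
      (q (K := K) N k) = x N (a + 2 ^ k) := by
  unfold q
  rw [map_sum]
  have h1 : ∀ i ∈ Finset.range (2 ^ k), pderiv (⟨a, by
      have := Nat.pow_lt_pow_right (show 1 < 2 by norm_num) (Nat.lt_succ_self k); omega⟩ : Fin N)
      (x (K := K) N i * x N (i + 2 ^ k)) = if i = a then x N (i + 2 ^ k) else 0 := by
    intro i hi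
    rw [Derivation.leibniz, pderiv_x, pderiv_x, if_neg (by omega), smul_zero, zero_add]
    split_ifs
    · simp
    · simp
  rw [Finset.sum_congr rfl h1, Finset.sum_ite_eq' (Finset.range (2 ^ k)) a,
    if_pos (Finset.mem_range.2 ha)]

/-- the doubling: if `x_0` is a linear combination of the `G_j` of degree one then so are
`x_0, …, x_{2^k - 1}`. -/
theorem doubling (G : Fin t → MvPolynomial (Fin N) K) (e : Fin t → ℕ)
    (he : ∀ j, 1 ≤ e j) (hG : ∀ j, (G j).IsHomogeneous (e j)) (hreg : NoRed G e)
    (n : ℕ) (hN : 2 ^ n ≤ N)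
    (hq : ∀ k < n, q (K := K) N k ∈ Algebra.adjoin K (Set.range G))
    (h0 : x (K := K) N 0 ∈ V G e 1) :
    ∀ k ≤ n, ∀ i < 2 ^ k, x (K := K) N i ∈ V G e 1 := by
  intro k
  induction k with
  | zero =>
    intro _ i hi
    have : i = 0 := by simpa using hi
    rw [this]
    exact h0
  | succ k ih =>
    intro hk i hi
    have ih' := ih (by omega)
    have hpow : 2 ^ (k + 1) ≤ N := (Nat.pow_le_pow_right (by norm_num) hk).trans hN
    have hI : q (K := K) N k ∈ Ideal.span (V G e 1 : Set (MvPolynomial (Fin N) K)) := by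
      unfold q
      apply Ideal.sum_mem
      intro j hj
      exact Ideal.mul_mem_right _ _ (Ideal.subset_span (ih' j (Finset.mem_range.1 hj)))
    have h1 := in_square G e he hG hreg _ (q_homog k) (hq k (by omega)) hI
    by_cases h : i < 2 ^ k
    · exact ih' i h
    · have h2 : i - 2 ^ k < 2 ^ k := by
        rw [pow_succ] at hi
        omega
      have h3 := pderiv_mem (V G e 1) (fun w hw => V_homog G e hG 1 hw)
        (⟨i - 2 ^ k, by have := Nat.pow_lt_pow_right (show 1 < 2 by norm_num) (Nat.lt_succ_self k); omega⟩ : Fin N) h1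
      rw [pderiv_q k hpow h2, Nat.sub_add_cancel (by omega)] at h3
      exact h3

theorem card_bound (G : Fin t → MvPolynomial (Fin N) K) (e : Fin t → ℕ)
    (h : ∀ i < N, x (K := K) N i ∈ V G e 1) : N ≤ t := by
  have hle : V G e 1 ≤ Submodule.span K (Set.range G) := by
    apply Submodule.span_mono
    rintro g ⟨j, -, rfl⟩
    exact ⟨j, rfl⟩
  haveI : Module.Finite K (Submodule.span K (Set.range G)) :=
    Module.Finite.span_of_finite K (Set.finite_range G)
  have hmem : ∀ i : Fin N, (X i : MvPolynomial (Fin N) K) ∈ Submodule.span K (Set.range G) := by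
    intro i
    apply hle
    have := h i i.2
    unfold x at this
    rw [dif_pos i.2] at this
    exact this
  have hli : LinearIndependent K (fun i : Fin N =>
      (⟨X i, hmem i⟩ : Submodule.span K (Set.range G))) := by
    apply LinearIndependent.of_comp (Submodule.span K (Set.range G)).subtype
    exact MvPolynomial.linearIndependent_X (Fin N) K
  have h1 := hli.fintype_card_le_finrank
  have h2 : Module.finrank K (Submodule.span K (Set.range G)) ≤ Fintype.card (Fin t) :=
    finrank_range_le_card G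
  simp only [Fintype.card_fin] at h1 h2
  omega

end Pool.Agent.H794R3.SmallSub
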