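import Pool.Agent.H794R3.SmallSub.Main

/-!
Relations on regular sequences, and the proof that `x_0^2, x_0 x_1` force `x_0`.
-/

set_option autoImplicit false

namespace Pool.Agent.H794R3.SmallSub

open MvPolynomial

universe u

theorem ofList_ofFn {A : Type u} [CommRing A] {t : ℕ} (G : Fin t → A) :
    Ideal.ofList (List.ofFn G) = Ideal.span (Set.range G) := by
  unfold Ideal.ofList
  congr 1
  ext y
  change y ∈ List.ofFn G ↔ _
  rw [List.mem_ofFn]
  rfl

/-- The coefficients of a relation on a regular sequence lie in the ideal of the sequence. -/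
theorem rel_mem {A : Type u} [CommRing A] : ∀ {t : ℕ} (G : Fin t → A),
    RingTheory.Sequence.IsWeaklyRegular A (List.ofFn G) → ∀ a : Fin t → A,
    ∑ j, a j * G j = 0 → ∀ j, a j ∈ Ideal.span (Set.range G) := by
  intro t
  induction t with
  | zero =>
    intro G _ a _ j
    exact j.elim0
  | succ t ih =>
    intro G hG a ha
    have hG' : List.ofFn G = List.ofFn (fun i : Fin t => G i.castSucc) ++ [G (Fin.last t)] := by
      rw [List.ofFn_succ', List.concat_eq_append]
    rw [hG'] at hG
    have h1 := (RingTheory.Sequence.isWeaklyRegular_append_iff A _ _).1 hG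
    have h2 := (RingTheory.Sequence.isWeaklyRegular_singleton_iff _ _).1 h1.2
    set I := Ideal.span (Set.range fun i : Fin t => G i.castSucc) with hI
    have h3 : ∀ x : A, (Submodule.Quotient.mk x :
        A ⧸ (Ideal.ofList (List.ofFn fun i : Fin t => G i.castSucc) • ⊤ : Submodule A A)) = 0 ↔
        x ∈ I := by
      intro x
      rw [Submodule.Quotient.mk_eq_zero, smul_eq_mul, Ideal.mul_top, ofList_ofFn]
    have h4 : ∀ b, G (Fin.last t) * b ∈ I → b ∈ I := by
      intro b hb
      rw [← h3]
      apply h2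
      show G (Fin.last t) • (Submodule.Quotient.mk b : A ⧸ (Ideal.ofList
        (List.ofFn fun i : Fin t => G i.castSucc) • ⊤ : Submodule A A)) = G (Fin.last t) • 0
      rw [smul_zero, ← Submodule.Quotient.mk_smul, h3]
      exact hb
    have hIle : I ≤ Ideal.span (Set.range G) := by
      apply Ideal.span_mono
      rintro _ ⟨i, rfl⟩
      exact ⟨_, rfl⟩
    rw [Fin.sum_univ_castSucc] at ha
    have h5 : a (Fin.last t) ∈ I := by
      apply h4
      have : G (Fin.last t) * a (Fin.last t) =
          - ∑ i : Fin t, a i.castSucc * G i.castSucc := by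
        linear_combination ha
      rw [this]
      apply Ideal.neg_mem_iff I |>.2
      apply Ideal.sum_mem
      intro i _
      exact Ideal.mul_mem_left _ _ (Ideal.subset_span ⟨i, rfl⟩)
    obtain ⟨b, hb⟩ := Ideal.mem_span_range_iff_exists_fun.1 h5
    have h6 : ∑ i : Fin t, (a i.castSucc + b i * G (Fin.last t)) * G i.castSucc = 0 := by
      have : ∑ i : Fin t, (a i.castSucc + b i * G (Fin.last t)) * G i.castSucc =
          ∑ i : Fin t, a i.castSucc * G i.castSucc +
            (∑ i : Fin t, b i * G i.castSucc) * G (Fin.last t) := by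
        rw [Finset.sum_mul, ← Finset.sum_add_distrib]
        apply Finset.sum_congr rfl
        intro i _
        ring
      rw [this, hb, ha]
    have h7 := ih _ h1.1 _ h6
    intro j
    refine Fin.lastCases ?_ (fun i => ?_) j
    · exact hIle h5
    · have h8 := hIle (h7 i)
      have h9 : b i * G (Fin.last t) ∈ Ideal.span (Set.range G) :=
        Ideal.mul_mem_left _ _ (Ideal.subset_span ⟨_, rfl⟩)
      have : a i.castSucc = (a i.castSucc + b i * G (Fin.last t)) - b i * G (Fin.last t) := by ring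
      rw [this]
      exact Ideal.sub_mem _ h8 h9

variable {K : Type u} [Field K] {N t : ℕ}

/-- the degree one part of the ideal generated by the `G_j` is spanned by the linear `G_j` -/
theorem linear_mem (G : Fin t → MvPolynomial (Fin N) K) (e : Fin t → ℕ)
    (he : ∀ j, 1 ≤ e j) (hG : ∀ j, (G j).IsHomogeneous (e j)) (l : MvPolynomial (Fin N) K)
    (hl : l.IsHomogeneous 1) (h : l ∈ Ideal.span (Set.range G)) : l ∈ V G e 1 := by
  obtain ⟨c, hc⟩ := Ideal.mem_span_range_iff_exists_fun.1 h
  have key : ∀ (p : MvPolynomial (Fin N) K) (j : Fin t),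
      homogeneousComponent 1 (p * G j) ∈ V G e 1 := by
    intro p j
    induction p using MvPolynomial.induction_on' with
    | monomial m a =>
      have h1 : (monomial m a * G j).IsHomogeneous (m.degree + e j) :=
        (isHomogeneous_monomial a rfl).mul (hG j)
      rw [homogeneousComponent_of_mem ((mem_homogeneousSubmodule _ _).2 h1)]
      split_ifs with h2
      · have h3 := he j
        have h4 : m.degree = 0 := by omega
        have h5 : m = 0 := by rwa [Finsupp.degree_eq_zero_iff] at h4
        rw [h5, ← C_apply, ← smul_eq_C_mul]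
        exact Submodule.smul_mem _ _ (Submodule.subset_span ⟨j, by omega, rfl⟩)
      · exact Submodule.zero_mem _
    | add p q hp hq =>
      rw [add_mul, map_add]
      exact Submodule.add_mem _ hp hq
  have h1 : l = ∑ j, homogeneousComponent 1 (c j * G j) := by
    rw [← map_sum, hc, homogeneousComponent_of_mem ((mem_homogeneousSubmodule _ _).2 hl),
      if_pos rfl]
  rw [h1]
  exact Submodule.sum_mem _ fun j _ => key _ _

theorem V_coeff (G : Fin t → MvPolynomial (Fin N) K) (e : Fin t → ℕ) (k : ℕ)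
    (w : MvPolynomial (Fin N) K) (hw : w ∈ V G e k) :
    ∃ c : Fin t → K, (∀ j, e j ≠ k → c j = 0) ∧ w = ∑ j, C (c j) * G j := by
  classical
  refine Submodule.span_induction ?_ ?_ ?_ ?_ hw
  · rintro _ ⟨j, hj, rfl⟩
    refine ⟨Pi.single j 1, ?_, ?_⟩
    · intro i hi
      apply Pi.single_eq_of_ne
      rintro rfl
      exact hi hj
    · rw [Finset.sum_eq_single j]
      · simp
      · intro i _ hi
        rw [Pi.single_eq_of_ne hi]
        simp
      · simp
  · exact ⟨0, fun _ _ => rfl, by simp⟩
  · rintro y z _ _ ⟨c, hc, rfl⟩ ⟨d, hd, rfl⟩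
    refine ⟨c + d, fun j hj => by simp [hc j hj, hd j hj], ?_⟩
    rw [← Finset.sum_add_distrib]
    apply Finset.sum_congr rfl
    intro i _
    rw [Pi.add_apply, C_add, add_mul]
  · rintro a y _ ⟨c, hc, rfl⟩
    refine ⟨a • c, fun j hj => by simp [hc j hj], ?_⟩
    rw [Finset.smul_sum]
    apply Finset.sum_congr rfl
    intro i _
    rw [Pi.smul_apply, smul_eq_mul, C_mul, smul_eq_C_mul, mul_assoc]

theorem I_coeff (G : Fin t → MvPolynomial (Fin N) K) (e : Fin t → ℕ)
    (w : MvPolynomial (Fin N) K)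
    (hw : w ∈ Ideal.span (V G e 1 : Set (MvPolynomial (Fin N) K))) :
    ∃ c : Fin t → MvPolynomial (Fin N) K, (∀ j, e j ≠ 1 → c j = 0) ∧ w = ∑ j, c j * G j := by
  refine Submodule.span_induction ?_ ?_ ?_ ?_ hw
  · intro y hy
    obtain ⟨c, hc, rfl⟩ := V_coeff G e 1 y hy
    exact ⟨fun j => C (c j), fun j hj => by simp only [hc j hj, C_0], rfl⟩
  · exact ⟨0, fun _ _ => rfl, by simp⟩
  · rintro y z _ _ ⟨c, hc, rfl⟩ ⟨d, hd, rfl⟩
    refine ⟨c + d, fun j hj => by simp [hc j hj, hd j hj], ?_⟩
    rw [← Finset.sum_add_distrib]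
    apply Finset.sum_congr rfl
    intro i _
    rw [Pi.add_apply, add_mul]
  · rintro a y _ ⟨c, hc, rfl⟩
    refine ⟨a • c, fun j hj => by simp [hc j hj], ?_⟩
    rw [Finset.smul_sum]
    apply Finset.sum_congr rfl
    intro i _
    rw [Pi.smul_apply, smul_eq_mul, smul_eq_mul, mul_assoc]

theorem sq_ideal (G : Fin t → MvPolynomial (Fin N) K) (e : Fin t → ℕ)
    {s : MvPolynomial (Fin N) K} (hs : s ∈ V G e 1 * V G e 1) :
    s ∈ Ideal.span (V G e 1 : Set (MvPolynomial (Fin N) K)) := by
  refine Submodule.mul_induction_on hs ?_ ?_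
  · intro m hm n _
    exact Ideal.mul_mem_right _ _ (Ideal.subset_span hm)
  · intro x y hx hy
    exact Ideal.add_mem _ hx hy

theorem noRed_of_regular (G : Fin t → MvPolynomial (Fin N) K) (e : Fin t → ℕ)
    (hreg : RingTheory.Sequence.IsRegular (MvPolynomial (Fin N) K) (List.ofFn G)) :
    NoRed G e := by
  intro u hu hI
  obtain ⟨c, hc, hcu⟩ := V_coeff G e 2 u hu
  obtain ⟨h, hh, hhu⟩ := I_coeff G e u hI
  have hne : Ideal.span (Set.range G) ≠ ⊤ := by
    rw [← ofList_ofFn]
    intro h1
    apply hreg.top_ne_smul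
    rw [h1, smul_eq_mul, Ideal.mul_top]
  have h1 : ∑ j, (C (c j) - h j) * G j = 0 := by
    have : ∑ j, (C (c j) - h j) * G j = ∑ j, C (c j) * G j - ∑ j, h j * G j := by
      rw [← Finset.sum_sub_distrib]
      exact Finset.sum_congr rfl fun j _ => by ring
    rw [this, ← hcu, ← hhu, sub_self]
  have h2 := rel_mem G hreg.toIsWeaklyRegular _ h1
  rw [hcu]
  apply Finset.sum_eq_zero
  intro j _
  by_cases hj : e j = 2
  · have h3 := h2 j
    rw [hh j (by omega), sub_zero] at h3
    by_cases hcj : c j = 0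
    · rw [hcj, C_0, zero_mul]
    · exfalso
      apply hne
      rw [Ideal.eq_top_iff_one]
      have : (1 : MvPolynomial (Fin N) K) = C (c j)⁻¹ * C (c j) := by
        rw [← C_mul, inv_mul_cancel₀ hcj, C_1]
      rw [this]
      exact Ideal.mul_mem_left _ _ h3
  · rw [hc j hj, C_0, zero_mul]

/-- `y^2 ∈ W * W` implies `y ∈ W` for a linear form `y` and a space `W` of linear forms. -/
theorem sq_mem (W : Submodule K (MvPolynomial (Fin N) K)) (hW : ∀ w ∈ W, w.IsHomogeneous 1)
    (y : MvPolynomial (Fin N) K) (hy : y.IsHomogeneous 1) (h : y ^ 2 ∈ W * W) : y ∈ W := by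
  by_contra hyW
  obtain ⟨f, hf, hWf⟩ := Submodule.exists_le_ker_of_notMem hyW
  have hev : ∀ w : MvPolynomial (Fin N) K, w.IsHomogeneous 1 →
      eval (fun i => f (X i)) w = f w := by
    intro w hw
    have h1 : w ∈ Submodule.span K (Set.range (X : Fin N → MvPolynomial (Fin N) K)) := by
      rw [← homogeneousSubmodule_one_eq_span_X]
      exact hw
    refine Submodule.span_induction ?_ ?_ ?_ ?_ h1
    · rintro _ ⟨i, rfl⟩
      rw [eval_X]
    · rw [map_zero, map_zero]
    · intro a b _ _ ha hb
      rw [map_add, map_add, ha, hb]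
    · intro a b _ hb
      rw [smul_eval, map_smul, hb, smul_eq_mul]
  have hz : ∀ z ∈ W * W, eval (fun i => f (X i)) z = 0 := by
    intro z hz
    refine Submodule.mul_induction_on hz ?_ ?_
    · intro m hm n _
      rw [map_mul, hev m (hW m hm), LinearMap.mem_ker.1 (hWf hm), zero_mul]
    · intro a b ha hb
      rw [map_add, ha, hb, add_zero]
  have h2 := hz _ h
  rw [map_pow, hev y hy] at h2
  exact hf (pow_eq_zero_iff (two_ne_zero) |>.1 h2)

/-- `x_0^2, x_0 x_1 ∈ K[G]` implies that `x_0` is a combination of the linear `G_j`. -/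
theorem first_two (hN : 2 ≤ N) (G : Fin t → MvPolynomial (Fin N) K) (e : Fin t → ℕ)
    (he : ∀ j, 1 ≤ e j) (hG : ∀ j, (G j).IsHomogeneous (e j))
    (hreg : RingTheory.Sequence.IsRegular (MvPolynomial (Fin N) K) (List.ofFn G))
    (h0 : x (K := K) N 0 ^ 2 ∈ Algebra.adjoin K (Set.range G))
    (h1 : x (K := K) N 0 * x N 1 ∈ Algebra.adjoin K (Set.range G)) :
    x (K := K) N 0 ∈ V G e 1 := by
  have hV : ∀ w ∈ V G e 1, w.IsHomogeneous 1 := fun w hw => V_homog G e hG 1 hw
  obtain ⟨s, hs, u, hu, hsu⟩ := Submodule.mem_sup.1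
    (Mon_two G he (mem_Mon G e hG 2 _ ((x_homog 0).pow 2) h0))
  obtain ⟨s', hs', u', hu', hsu'⟩ := Submodule.mem_sup.1
    (Mon_two G he (mem_Mon G e hG 2 _ ((x_homog 0).mul (x_homog 1)) h1))
  obtain ⟨c, hc, hcu⟩ := V_coeff G e 2 u hu
  obtain ⟨d, hd, hdu⟩ := V_coeff G e 2 u' hu'
  obtain ⟨h, hh, hhu⟩ := I_coeff G e (x N 1 * s - x N 0 * s')
    (Ideal.sub_mem _ (Ideal.mul_mem_left _ _ (sq_ideal G e hs))
      (Ideal.mul_mem_left _ _ (sq_ideal G e hs')))
  have hrel : ∑ j, (h j + (C (c j) * x N 1 - C (d j) * x N 0)) * G j = 0 := by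
    have : ∑ j, (h j + (C (c j) * x N 1 - C (d j) * x N 0)) * G j =
        ∑ j, h j * G j + (x N 1 * ∑ j, C (c j) * G j - x N 0 * ∑ j, C (d j) * G j) := by
      rw [Finset.mul_sum, Finset.mul_sum, ← Finset.sum_sub_distrib, ← Finset.sum_add_distrib]
      exact Finset.sum_congr rfl fun j _ => by ring
    rw [this, ← hhu, ← hcu, ← hdu]
    linear_combination x N 1 * hsu - x N 0 * hsu'
  have hmem := rel_mem G hreg.toIsWeaklyRegular _ hrel
  have hlin : ∀ j, C (c j) * x N 1 - C (d j) * x N 0 ∈ V G e 1 := by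
    intro j
    by_cases hj : e j = 2
    · apply linear_mem G e he hG
      · apply IsHomogeneous.sub
        · exact (x_homog 1).C_mul _
        · exact (x_homog 0).C_mul _
      · have h3 := hmem j
        rw [hh j (by omega), zero_add] at h3
        exact h3
    · rw [hc j hj, hd j hj, C_0, zero_mul, zero_mul, sub_zero]
      exact Submodule.zero_mem _
  by_contra hx
  by_cases hall : ∀ j, c j = 0
  · apply hx
    apply sq_mem (V G e 1) hV _ (x_homog 0)
    have : u = 0 := by
      rw [hcu]
      exact Finset.sum_eq_zero fun j _ => by rw [hall j, C_0, zero_mul]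
    rw [← hsu, this, add_zero]
    exact hs
  · push Not at hall
    obtain ⟨j, hj⟩ := hall
    have hprop : ∀ k, d k = d j / c j * c k := by
      intro k
      by_contra hk
      apply hx
      -- `c_j (c_k x_1 - d_k x_0) - c_k (c_j x_1 - d_j x_0) = (c_k d_j - c_j d_k) x_0`
      have h2 : c j • (C (c k) * x N 1 - C (d k) * x N 0) -
          c k • (C (c j) * x N 1 - C (d j) * x N 0) = (c k * d j - c j * d k) •
            x (K := K) N 0 := by
        simp only [smul_eq_C_mul, C_sub, C_mul]
        ring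
      have h3 := Submodule.sub_mem _ (Submodule.smul_mem _ (c j) (hlin k))
        (Submodule.smul_mem _ (c k) (hlin j))
      rw [h2] at h3
      have h4 : c k * d j - c j * d k ≠ 0 := by
        intro h5
        apply hk
        field_simp
        linear_combination -h5
      exact (Submodule.smul_mem_iff _ h4).1 h3
    have hu2 : u' = (d j / c j) • u := by
      rw [hdu, hcu, Finset.smul_sum]
      apply Finset.sum_congr rfl
      intro k _
      rw [hprop k, C_mul, smul_eq_C_mul, mul_assoc]
    have h5 : x (K := K) N 0 * x N 1 - (d j / c j) • x N 0 ^ 2 ∈ V G e 1 * V G e 1 := by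
      have : x (K := K) N 0 * x N 1 - (d j / c j) • x N 0 ^ 2 = s' - (d j / c j) • s := by
        rw [← hsu, ← hsu', hu2, smul_add]
        ring
      rw [this]
      exact Submodule.sub_mem _ hs' (Submodule.smul_mem _ _ hs)
    have h6 := pderiv_mem (V G e 1) hV (⟨1, by omega⟩ : Fin N) h5
    have h7 : pderiv (⟨1, by omega⟩ : Fin N)
        (x (K := K) N 0 * x N 1 - (d j / c j) • x N 0 ^ 2) = x N 0 := by
      rw [map_sub, Derivation.leibniz, pow_two, Derivation.map_smul, Derivation.leibniz,
        pderiv_x, pderiv_x]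
      simp
    rw [h7] at h6
    exact hx h6

/-- A regular sequence of forms of positive degree whose subalgebra contains the quadrics
`x_0^2, q_0, …, q_{n-1}` in `2^n` variables has at least `2^n` members. -/
theorem lower (n : ℕ) (G : Fin t → MvPolynomial (Fin (2 ^ n)) K) (e : Fin t → ℕ)
    (he : ∀ j, 1 ≤ e j) (hG : ∀ j, (G j).IsHomogeneous (e j))
    (hreg : RingTheory.Sequence.IsRegular (MvPolynomial (Fin (2 ^ n)) K) (List.ofFn G))
    (h0 : x (K := K) (2 ^ n) 0 ^ 2 ∈ Algebra.adjoin K (Set.range G))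
    (hq : ∀ k < n, q (K := K) (2 ^ n) k ∈ Algebra.adjoin K (Set.range G)) : 2 ^ n ≤ t := by
  rcases Nat.eq_zero_or_pos n with rfl | hn
  · by_contra ht
    have ht0 : t = 0 := by
      have : (2 : ℕ) ^ 0 = 1 := rfl
      omega
    subst ht0
    obtain ⟨s, hs, u, hu, hsu⟩ := Submodule.mem_sup.1
      (Mon_two G he (mem_Mon G e hG 2 _ ((x_homog 0).pow 2) h0))
    have hV : ∀ k, V G e k = ⊥ := by
      intro k
      unfold V
      rw [Submodule.span_eq_bot]
      rintro g ⟨j, -, -⟩
      exact j.elim0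
    rw [hV, Submodule.bot_mul, Submodule.mem_bot] at hs
    rw [hV, Submodule.mem_bot] at hu
    rw [hs, hu, add_zero] at hsu
    have h1 : x (K := K) (2 ^ 0) 0 = 0 := pow_eq_zero_iff (two_ne_zero) |>.1 hsu.symm
    unfold x at h1
    rw [dif_pos (by norm_num)] at h1
    exact X_ne_zero _ h1
  · have hN : 2 ≤ 2 ^ n := by
      calc 2 = 2 ^ 1 := rfl
        _ ≤ 2 ^ n := Nat.pow_le_pow_right (by norm_num) hn
    apply card_bound G e
    refine doubling G e he hG (noRed_of_regular G e hreg) n le_rfl hq ?_ n le_rfl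
    apply first_two hN G e he hG hreg h0
    have := hq 0 hn
    unfold q at this
    simpa using this

end Pool.Agent.H794R3.SmallSub
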